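import Pool.Agent.helper71.CK.K2

namespace Pool.Agent.helper32.CK

open scoped InnerProductSpace ComplexOrder
open Filter Topology

universe u v w

/-- a damping element for a positive `s`. -/
theorem K4_damp {U : Type u} [CStarAlgebra U] [PartialOrder U] [StarOrderedRing U] (s : U)
    (hs : 0 ≤ s) (K : ℝ) (hK : 0 < K) :
    ∃ c : U, IsSelfAdjoint c ∧ ‖c‖ ≤ 1 ∧ ‖c * s * c‖ ≤ 1 / (4 * K) ∧
      (1 - c) * (1 - c) ≤ K • s := by
  have hsa : IsSelfAdjoint s := IsSelfAdjoint.of_nonneg hs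
  have hsp : ∀ t ∈ spectrum ℝ s, 0 ≤ t := fun t ht => spectrum_nonneg_of_nonneg hs ht
  have hpos : ∀ t ∈ spectrum ℝ s, 0 < 1 + K * t := fun t ht => by
    have := hsp t ht
    positivity
  have hcont : ContinuousOn (fun t : ℝ => (1 + K * t)⁻¹) (spectrum ℝ s) := by
    apply ContinuousOn.inv₀
    · fun_prop
    · intro t ht
      exact (hpos t ht).ne'
  refine ⟨cfc (fun t : ℝ => (1 + K * t)⁻¹) s, cfc_predicate _ _, ?_, ?_, ?_⟩
  · apply norm_cfc_le zero_le_one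
    intro t ht
    rw [Real.norm_eq_abs, abs_of_pos (inv_pos.2 (hpos t ht))]
    apply inv_le_one_of_one_le₀
    have := hsp t ht
    nlinarith [mul_nonneg hK.le this]
  · have h1 : cfc (fun t : ℝ => (1 + K * t)⁻¹) s * s * cfc (fun t : ℝ => (1 + K * t)⁻¹) s
        = cfc (fun t : ℝ => (1 + K * t)⁻¹ * t * (1 + K * t)⁻¹) s := by
      rw [cfc_mul (fun t : ℝ => (1 + K * t)⁻¹ * t) (fun t : ℝ => (1 + K * t)⁻¹) s
        (hcont.mul continuousOn_id) hcont, cfc_mul (fun t : ℝ => (1 + K * t)⁻¹) (fun t : ℝ => t) s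
        hcont continuousOn_id, cfc_id' ℝ s]
    rw [h1]
    apply norm_cfc_le (by positivity)
    intro t ht
    have h0 := hsp t ht
    have hp := hpos t ht
    rw [Real.norm_eq_abs, abs_of_nonneg (by positivity)]
    have : (1 + K * t)⁻¹ * t * (1 + K * t)⁻¹ = t / (1 + K * t) ^ 2 := by
      field_simp
    rw [this, div_le_div_iff₀ (by positivity) (by positivity)]
    nlinarith [sq_nonneg (1 - K * t)]
  · have h1 : (1 : U) = cfc (fun _ : ℝ => (1 : ℝ)) s := by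
      rw [cfc_const_one ℝ s]
    have h2 : (1 - cfc (fun t : ℝ => (1 + K * t)⁻¹) s) =
        cfc (fun t : ℝ => 1 - (1 + K * t)⁻¹) s := by
      rw [cfc_sub (fun _ : ℝ => (1 : ℝ)) (fun t : ℝ => (1 + K * t)⁻¹) s continuousOn_const hcont,
        cfc_const_one ℝ s]
    have hcont2 : ContinuousOn (fun t : ℝ => 1 - (1 + K * t)⁻¹) (spectrum ℝ s) :=
      continuousOn_const.sub hcont
    have h3 : K • s = cfc (fun t : ℝ => K • t) s := by
      rw [cfc_smul K (fun t : ℝ => t) s continuousOn_id, cfc_id' ℝ s]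
    rw [h2, h3, ← cfc_mul (fun t : ℝ => 1 - (1 + K * t)⁻¹) (fun t : ℝ => 1 - (1 + K * t)⁻¹) s
      hcont2 hcont2]
    apply cfc_mono
    · intro t ht
      have h0 := hsp t ht
      have hp := hpos t ht
      have h4 : (1 + K * t)⁻¹ * (1 + K * t) = 1 := inv_mul_cancel₀ hp.ne'
      have h5 : 1 - (1 + K * t)⁻¹ = (K * t) * (1 + K * t)⁻¹ := by
        field_simp
        ring
      have h6 : (1 + K * t)⁻¹ ≤ 1 := by
        apply inv_le_one_of_one_le₀
        nlinarith [mul_nonneg hK.le h0]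
      have h7 : 0 < (1 + K * t)⁻¹ := inv_pos.2 hp
      have h8 : (K * t) * (1 + K * t)⁻¹ ≤ 1 := by
        rw [← div_eq_mul_inv, div_le_one hp]
        linarith
      show (1 - (1 + K * t)⁻¹) * (1 - (1 + K * t)⁻¹) ≤ K • t
      rw [h5, smul_eq_mul]
      have h9 : 0 ≤ K * t := mul_nonneg hK.le h0
      calc (K * t) * (1 + K * t)⁻¹ * ((K * t) * (1 + K * t)⁻¹)
          ≤ ((K * t) * 1) * 1 := by
            apply mul_le_mul _ h8 (by positivity) (by positivity)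
            exact mul_le_mul_of_nonneg_left h6 h9
        _ = K * t := by ring
    · exact hcont2.mul hcont2
    · exact (continuous_const_smul K).continuousOn

/-- positivity in a representation -/
theorem K4_pos {U : Type u} [CStarAlgebra U] [PartialOrder U] [StarOrderedRing U]
    {H : Type v} [NormedAddCommGroup H] [InnerProductSpace ℂ H] [CompleteSpace H]
    (P : U →⋆ₐ[ℂ] (H →L[ℂ] H)) (ξ : H) (a : U) (ha : 0 ≤ a) : 0 ≤ (⟪ξ, P a ξ⟫_ℂ).re := by
  obtain ⟨r, rfl⟩ := CStarAlgebra.nonneg_iff_eq_star_mul_self.1 ha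
  have : ⟪ξ, P (star r * r) ξ⟫_ℂ = ⟪P r ξ, P r ξ⟫_ℂ := by
    rw [map_mul, map_star]
    show ⟪ξ, (ContinuousLinearMap.adjoint (P r)) (P r ξ)⟫_ℂ = _
    rw [ContinuousLinearMap.adjoint_inner_right]
  rw [this]
  exact inner_self_nonneg (𝕜 := ℂ)

theorem K4_sq {U : Type u} [CStarAlgebra U]
    {H : Type v} [NormedAddCommGroup H] [InnerProductSpace ℂ H] [CompleteSpace H]
    (P : U →⋆ₐ[ℂ] (H →L[ℂ] H)) (ξ : H) (r : U) :
    (⟪ξ, P (star r * r) ξ⟫_ℂ).re = ‖P r ξ‖ ^ 2 := by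
  have : ⟪ξ, P (star r * r) ξ⟫_ℂ = ⟪P r ξ, P r ξ⟫_ℂ := by
    rw [map_mul, map_star]
    show ⟪ξ, (ContinuousLinearMap.adjoint (P r)) (P r ξ)⟫_ℂ = _
    rw [ContinuousLinearMap.adjoint_inner_right]
  rw [this]
  exact (norm_sq_eq_re_inner (𝕜 := ℂ) _).symm

theorem K4_main {B : Type u} [NonUnitalCStarAlgebra B] {H : Type v} [NormedAddCommGroup H]
    [InnerProductSpace ℂ H] [CompleteSpace H] {π : B →⋆ₙₐ[ℂ] (H →L[ℂ] H)}
    (ξ : H) (hξ : ‖ξ‖ = 1)
    (hone : ∀ κ : ℝ, 0 < κ → ∃ b : B, IsSelfAdjoint b ∧ ‖b‖ ≤ 1 ∧ ‖π b ξ - ξ‖ ≤ κ)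
    (hdens : ∀ (T : H →L[ℂ] H) (κ : ℝ), 0 < κ → ∃ b : B, ‖π b ξ - T ξ‖ ≤ κ ∧
      ‖π (star b) ξ - (star T) ξ‖ ≤ κ)
    {U : Type w} [CStarAlgebra U] [PartialOrder U] [StarOrderedRing U] (ι : B →⋆ₙₐ[ℂ] U)
    (hι : ∀ b, ‖ι b‖ = ‖b‖) (hid : ∀ (c : U) (b : B), ∃ d : B, ι d = ι b * c)
    (P : U →⋆ₐ[ℂ] (H →L[ℂ] H)) (hP : ∀ b, P (ι b) = π b)
    (X : Finset B) (κ : ℝ) (hκ : 0 < κ) :
    ∃ d : B, ‖star d * d‖ ≤ 1 ∧ 1 - κ ≤ ‖star d * d‖ ∧
      ∀ x ∈ X, ‖(star d * d) * x * (star d * d) -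
        ⟪ξ, π x ξ⟫_ℂ • ((star d * d) * (star d * d))‖ ≤ κ := by
  classical
  -- constants
  set M : ℝ := 1 + ∑ x ∈ X, ‖x‖ with hM
  have hMpos : 1 ≤ M := by
    have : 0 ≤ ∑ x ∈ X, ‖x‖ := Finset.sum_nonneg fun _ _ => norm_nonneg _
    linarith
  have hMx : ∀ x ∈ X, ‖x‖ ≤ M := by
    intro x hx
    have := Finset.single_le_sum (f := fun x : B => ‖x‖) (fun _ _ => norm_nonneg _) hx
    linarith
  set γ : ℝ := κ / (16 * M) with hγ
  have hγpos : 0 < γ := by positivity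
  have hγM : 16 * (M * γ) = κ := by
    rw [hγ]; field_simp
  set K : ℝ := 1 / γ ^ 2 with hK
  have hKpos : 0 < K := by positivity
  set m : ℝ := (X.card : ℝ) + 1 with hm
  have hmpos : 1 ≤ m := by
    have : (0 : ℝ) ≤ (X.card : ℝ) := Nat.cast_nonneg _
    linarith
  set δ : ℝ := min (γ / 2) (κ / (8 * (1 + K * m))) with hδ
  have hKm : 0 < K * m := by positivity
  have hδpos : 0 < δ := lt_min (by positivity) (by positivity)
  have hδ1 : δ ≤ γ / 2 := min_le_left _ _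
  have hδ2 : δ ≤ κ / (8 * (1 + K * m)) := min_le_right _ _
  have hδ3 : 8 * (1 + K * m) * δ ≤ κ := by
    rw [le_div_iff₀ (by positivity)] at hδ2
    linarith
  -- the element near one
  obtain ⟨b1, hb1s, hb1n, hb1⟩ := hone δ hδpos
  set u : B := b1 * b1 with hu
  have hun : ‖u‖ ≤ 1 := by
    calc ‖u‖ ≤ ‖b1‖ * ‖b1‖ := norm_mul_le _ _
      _ ≤ 1 * 1 := by gcongr
      _ = 1 := one_mul 1
  have hπb1 : ‖π b1‖ ≤ 1 := (NonUnitalStarAlgHom.norm_apply_le π b1).trans hb1n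
  have huξ : ‖π u ξ - ξ‖ ≤ 2 * δ := by
    have : π u ξ - ξ = π b1 (π b1 ξ - ξ) + (π b1 ξ - ξ) := by
      rw [hu, map_mul]
      simp
    rw [this]
    calc _ ≤ ‖π b1 (π b1 ξ - ξ)‖ + ‖π b1 ξ - ξ‖ := norm_add_le _ _
      _ ≤ ‖π b1‖ * ‖π b1 ξ - ξ‖ + ‖π b1 ξ - ξ‖ := by
          gcongr; exact ContinuousLinearMap.le_opNorm _ _
      _ ≤ 1 * δ + δ := by gcongr
      _ = 2 * δ := by ring
  set X' : Finset B := insert u X with hX'
  have hX'card : (X'.card : ℝ) ≤ m := by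
    have := Finset.card_insert_le u X
    rw [hm]
    exact_mod_cast this
  set wt : B → ℂ := fun x => ⟪ξ, π x ξ⟫_ℂ with hwt
  have hξξ : ⟪ξ, ξ⟫_ℂ = 1 := by
    rw [inner_self_eq_norm_sq_to_K, hξ]; simp
  set y : B → U := fun x => ι x - wt x • (1 : U) with hy
  have hPy : ∀ x, P (y x) ξ = π x ξ - wt x • ξ := by
    intro x
    simp [hy, hP]
  have hPy0 : ∀ x, ⟪ξ, P (y x) ξ⟫_ℂ = 0 := by
    intro x
    rw [hPy, inner_sub_right, inner_smul_right, hξξ]
    simp [hwt]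
  have hPy0' : ∀ x, ⟪P (y x) ξ, ξ⟫_ℂ = 0 := by
    intro x
    rw [← inner_conj_symm, hPy0]
    simp
  choose v hv1 hv2 using fun x : B => hdens (InnerProductSpace.rankOne ℂ ξ (P (y x) ξ)) δ hδpos
  have hv1' : ∀ x, ‖P (ι (v x)) ξ‖ ≤ δ := by
    intro x
    have := hv1 x
    rw [InnerProductSpace.rankOne_apply, hPy0', zero_smul, sub_zero] at this
    rw [hP]
    exact this
  set n : B → U := fun x => y x - ι (star (v x)) with hn
  have hn' : ∀ x, ‖P (n x) ξ‖ ≤ δ := by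
    intro x
    have := hv2 x
    rw [ContinuousLinearMap.star_eq_adjoint, InnerProductSpace.adjoint_rankOne,
      InnerProductSpace.rankOne_apply, hξξ, one_smul] at this
    rw [norm_sub_rev] at this
    simpa [hn, hP] using this
  set s : U := ∑ x ∈ X', (star (n x) * n x + star (ι (v x)) * ι (v x)) with hs
  have hs1 : ∀ x, 0 ≤ (star (n x) * n x + star (ι (v x)) * ι (v x)) := fun x =>
    add_nonneg (star_mul_self_nonneg _) (star_mul_self_nonneg _)
  have hs0 : 0 ≤ s := Finset.sum_nonneg fun x _ => hs1 x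
  obtain ⟨c, hcs, hcn, hcsc, hcK⟩ := K4_damp s hs0 K hKpos
  have hle : ∀ x ∈ X', star (n x) * n x ≤ s ∧ star (ι (v x)) * ι (v x) ≤ s := by
    intro x hx
    have h1 := Finset.single_le_sum (f := fun x : B => (star (n x) * n x +
      star (ι (v x)) * ι (v x))) (fun x _ => hs1 x) hx
    exact ⟨(le_add_of_nonneg_right (star_mul_self_nonneg _)).trans h1,
      (le_add_of_nonneg_left (star_mul_self_nonneg _)).trans h1⟩
  have hdampn : ∀ a : U, star a * a ≤ s → ‖a * c‖ ≤ γ / 2 := by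
    intro a ha
    have h1 : ‖a * c‖ ^ 2 ≤ (γ / 2) ^ 2 := by
      calc ‖a * c‖ ^ 2 = ‖star (a * c) * (a * c)‖ := by
            rw [CStarRing.norm_star_mul_self, sq]
        _ = ‖star c * (star a * a) * c‖ := by
            rw [star_mul]; simp only [mul_assoc]
        _ ≤ ‖star c * s * c‖ := by
            have hnn : 0 ≤ star c * (star a * a) * c := by
              have := star_mul_self_nonneg (a * c)
              rw [star_mul] at this
              simpa only [mul_assoc] using this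
            have hle' : star c * (star a * a) * c ≤ star c * s * c :=
              star_left_conjugate_le_conjugate ha c
            exact @CStarAlgebra.norm_le_norm_of_nonneg_of_le _ _ _ _ _ _ hnn hle'
        _ ≤ 1 / (4 * K) := by rw [hcs.star_eq]; exact hcsc
        _ = (γ / 2) ^ 2 := by rw [hK]; field_simp; norm_num
    exact (abs_le_of_sq_le_sq' h1 (by positivity)).2
  -- the key estimate
  have hkey : ∀ x ∈ X', ‖c * ι x * c - wt x • (c * c)‖ ≤ γ := by
    intro x hx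
    have h1 : c * ι x * c - wt x • (c * c) = c * (n x * c) + star (ι (v x) * c) * c := by
      have : ι x = n x + star (ι (v x)) + wt x • (1 : U) := by
        simp only [hn, hy, map_star]
        abel
      rw [this, star_mul, hcs.star_eq]
      simp only [mul_add, add_mul, mul_smul_comm, smul_mul_assoc, mul_one, mul_assoc]
      abel
    rw [h1]
    have h2 := hdampn _ (hle x hx).1
    have h3 := hdampn _ (hle x hx).2
    calc _ ≤ ‖c * (n x * c)‖ + ‖star (ι (v x) * c) * c‖ := norm_add_le _ _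
      _ ≤ ‖c‖ * ‖n x * c‖ + ‖star (ι (v x) * c)‖ * ‖c‖ :=
          add_le_add (norm_mul_le _ _) (norm_mul_le _ _)
      _ ≤ 1 * (γ / 2) + (γ / 2) * 1 := by
          rw [norm_star]
          gcongr
      _ = γ := by ring
  -- c fixes ξ approximately
  have hcξ : ‖P c ξ - ξ‖ ≤ κ / 4 := by
    have h1 : P c ξ - ξ = - P (1 - c) ξ := by
      simp
    have h2 : ‖P (1 - c) ξ‖ ^ 2 ≤ (κ / 4) ^ 2 := by
      have h3 : 0 ≤ K • s - (1 - c) * (1 - c) := sub_nonneg.2 hcK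
      have h4 := K4_pos P ξ _ h3
      have h5 : (⟪ξ, P ((1 - c) * (1 - c)) ξ⟫_ℂ).re = ‖P (1 - c) ξ‖ ^ 2 := by
        rw [← K4_sq P ξ (1 - c)]
        have : star (1 - c) = 1 - c := by rw [star_sub, star_one, hcs.star_eq]
        rw [this]
      have h6 : (⟪ξ, P s ξ⟫_ℂ).re ≤ m * (2 * δ ^ 2) := by
        have : (⟪ξ, P s ξ⟫_ℂ).re = ∑ x ∈ X', (‖P (n x) ξ‖ ^ 2 + ‖P (ι (v x)) ξ‖ ^ 2) := by
          rw [hs, map_sum]
          simp only [ContinuousLinearMap.sum_apply, inner_sum, Complex.re_sum]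
          apply Finset.sum_congr rfl
          intro x _
          rw [← K4_sq P ξ (n x), ← K4_sq P ξ (ι (v x)), map_add]
          simp [inner_add_right]
        rw [this]
        calc _ ≤ ∑ x ∈ X', (2 * δ ^ 2) := by
              apply Finset.sum_le_sum
              intro x _
              have e1 := hn' x
              have e2 := hv1' x
              have e3 : ‖P (n x) ξ‖ ^ 2 ≤ δ ^ 2 := by gcongr
              have e4 : ‖P (ι (v x)) ξ‖ ^ 2 ≤ δ ^ 2 := by gcongr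
              linarith
          _ = X'.card * (2 * δ ^ 2) := by rw [Finset.sum_const, nsmul_eq_mul]
          _ ≤ m * (2 * δ ^ 2) := by gcongr
      have h7 : (⟪ξ, P (K • s - (1 - c) * (1 - c)) ξ⟫_ℂ).re =
          K * (⟪ξ, P s ξ⟫_ℂ).re - ‖P (1 - c) ξ‖ ^ 2 := by
        rw [← h5, map_sub]
        have : P (K • s) = (K : ℂ) • P s := by
          rw [show K • s = (K : ℂ) • s from (Complex.coe_smul K s).symm, map_smul]
        rw [this]
        simp [inner_sub_right, inner_smul_right]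
      rw [h7] at h4
      have h8 : ‖P (1 - c) ξ‖ ^ 2 ≤ K * (m * (2 * δ ^ 2)) := by
        have := mul_le_mul_of_nonneg_left h6 hKpos.le
        linarith
      have h9 : 0 ≤ δ := hδpos.le
      have h10 : (8 * (1 + K * m) * δ) ^ 2 ≤ κ ^ 2 := by gcongr
      nlinarith [mul_nonneg hKm.le (sq_nonneg δ), mul_nonneg (mul_nonneg hKm.le hKm.le) (sq_nonneg δ),
        sq_nonneg δ]
    rw [h1, norm_neg]
    exact (abs_le_of_sq_le_sq' h2 (by positivity)).2
  -- the element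
  obtain ⟨d, hd⟩ := hid c b1
  have hιb : ι (star d * d) = c * ι u * c := by
    rw [map_mul, map_star, hd, star_mul, hcs.star_eq, ← map_star, hb1s.star_eq, hu, map_mul]
    simp only [mul_assoc]
  have hbn : ‖star d * d‖ ≤ 1 := by
    rw [← hι, hιb]
    calc ‖c * ι u * c‖ ≤ ‖c‖ * ‖ι u‖ * ‖c‖ :=
          (norm_mul_le _ _).trans (mul_le_mul_of_nonneg_right (norm_mul_le _ _) (norm_nonneg _))
      _ ≤ 1 * 1 * 1 := by
          rw [hι]
          gcongr
      _ = 1 := by norm_num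
  have hPc : ‖P c‖ ≤ 1 := (NonUnitalStarAlgHom.norm_apply_le P c).trans hcn
  refine ⟨d, hbn, ?_, ?_⟩
  · have h1 : ‖π (star d * d) ξ - ξ‖ ≤ κ := by
      have h2 : π (star d * d) ξ - ξ = P c (π u (P c ξ - ξ)) + P c (π u ξ - ξ) + (P c ξ - ξ) := by
        rw [← hP, hιb, map_mul, map_mul, hP]
        simp
      have hπu : ‖π u‖ ≤ 1 := (NonUnitalStarAlgHom.norm_apply_le π u).trans hun
      rw [h2]
      calc _ ≤ ‖P c (π u (P c ξ - ξ))‖ + ‖P c (π u ξ - ξ)‖ + ‖P c ξ - ξ‖ := norm_add₃_le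
        _ ≤ ‖P c‖ * (‖π u‖ * ‖P c ξ - ξ‖) + ‖P c‖ * ‖π u ξ - ξ‖ + ‖P c ξ - ξ‖ := by
            gcongr
            · exact (ContinuousLinearMap.le_opNorm _ _).trans (by
                gcongr; exact ContinuousLinearMap.le_opNorm _ _)
            · exact ContinuousLinearMap.le_opNorm _ _
        _ ≤ 1 * (1 * (κ / 4)) + 1 * (2 * δ) + κ / 4 := by gcongr
        _ ≤ κ := by
            have : 8 * δ ≤ κ := by nlinarith [mul_pos hKm hδpos]
            linarith
    have h3 : ‖π (star d * d) ξ‖ ≤ ‖star d * d‖ := by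
      calc _ ≤ ‖π (star d * d)‖ * ‖ξ‖ := ContinuousLinearMap.le_opNorm _ _
        _ ≤ ‖star d * d‖ * 1 := by
            rw [hξ]
            gcongr
            exact NonUnitalStarAlgHom.norm_apply_le π _
        _ = _ := mul_one _
    have h4 : ‖ξ‖ - ‖π (star d * d) ξ - ξ‖ ≤ ‖π (star d * d) ξ‖ := by
      have := norm_sub_norm_le ξ (ξ - π (star d * d) ξ)
      rw [norm_sub_rev ξ (π (star d * d) ξ)] at this
      simpa using this
    rw [hξ] at h4
    linarith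
  · intro x hx
    set b : B := star d * d with hb
    set e : U := c * c with he
    have hen : ‖e‖ ≤ 1 := by
      calc ‖e‖ ≤ ‖c‖ * ‖c‖ := norm_mul_le _ _
        _ ≤ 1 * 1 := by gcongr
        _ = 1 := one_mul 1
    have hbe : ‖ι b - e‖ ≤ 2 * γ := by
      have h1 := hkey u (Finset.mem_insert_self _ _)
      have h2 : ‖wt u - 1‖ ≤ 2 * δ := by
        have : wt u - 1 = ⟪ξ, π u ξ - ξ⟫_ℂ := by
          rw [inner_sub_right, hξξ]
        rw [this]
        calc _ ≤ ‖ξ‖ * ‖π u ξ - ξ‖ := norm_inner_le_norm _ _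
          _ ≤ 1 * (2 * δ) := by rw [hξ]; gcongr
          _ = 2 * δ := one_mul _
      have h3 : ι b - e = (c * ι u * c - wt u • (c * c)) + (wt u - 1) • e := by
        rw [hιb, sub_smul, one_smul]
        abel
      rw [h3]
      calc _ ≤ ‖c * ι u * c - wt u • (c * c)‖ + ‖(wt u - 1) • e‖ := norm_add_le _ _
        _ ≤ γ + (2 * δ) * 1 := by
            rw [norm_smul]
            gcongr
        _ ≤ 2 * γ := by linarith
    have hιbn : ‖ι b‖ ≤ 1 := by rw [hι]; exact hbn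
    have hwx : ‖wt x‖ ≤ M := by
      calc ‖wt x‖ ≤ ‖ξ‖ * ‖π x ξ‖ := norm_inner_le_norm _ _
        _ ≤ ‖ξ‖ * (‖π x‖ * ‖ξ‖) := by gcongr; exact ContinuousLinearMap.le_opNorm _ _
        _ = ‖π x‖ := by rw [hξ]; ring
        _ ≤ ‖x‖ := NonUnitalStarAlgHom.norm_apply_le π _
        _ ≤ M := hMx x hx
    have h1 : ι (b * x * b - wt x • (b * b)) =
        (ι b - e) * ι x * ι b + e * ι x * (ι b - e) + c * (c * ι x * c - wt x • (c * c)) * c
        - wt x • ((ι b - e) * ι b + e * (ι b - e)) := by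
      rw [map_sub, map_smul, map_mul ι (b * x) b, map_mul ι b x, map_mul ι b b, he]
      simp only [mul_sub, sub_mul, mul_smul_comm, smul_mul_assoc, smul_sub, smul_add, mul_assoc]
      abel
    rw [← hι, h1]
    have hx' := hkey x (Finset.mem_insert_of_mem hx)
    have hxn : ‖ι x‖ ≤ M := by rw [hι]; exact hMx x hx
    have t1 : ‖(ι b - e) * ι x * ι b‖ ≤ 2 * γ * M := by
      calc _ ≤ ‖ι b - e‖ * ‖ι x‖ * ‖ι b‖ :=
          (norm_mul_le _ _).trans (mul_le_mul_of_nonneg_right (norm_mul_le _ _) (norm_nonneg _))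
        _ ≤ (2 * γ) * M * 1 := by gcongr
        _ = _ := by ring
    have t2 : ‖e * ι x * (ι b - e)‖ ≤ 2 * γ * M := by
      calc _ ≤ ‖e‖ * ‖ι x‖ * ‖ι b - e‖ :=
          (norm_mul_le _ _).trans (mul_le_mul_of_nonneg_right (norm_mul_le _ _) (norm_nonneg _))
        _ ≤ 1 * M * (2 * γ) := by gcongr
        _ = _ := by ring
    have t3 : ‖c * (c * ι x * c - wt x • (c * c)) * c‖ ≤ γ := by
      calc _ ≤ ‖c‖ * ‖c * ι x * c - wt x • (c * c)‖ * ‖c‖ :=
          (norm_mul_le _ _).trans (mul_le_mul_of_nonneg_right (norm_mul_le _ _) (norm_nonneg _))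
        _ ≤ 1 * γ * 1 := by gcongr
        _ = _ := by ring
    have t4 : ‖wt x • ((ι b - e) * ι b + e * (ι b - e))‖ ≤ 4 * γ * M := by
      rw [norm_smul]
      calc _ ≤ ‖wt x‖ * (‖ι b - e‖ * ‖ι b‖ + ‖e‖ * ‖ι b - e‖) := by
            gcongr
            exact (norm_add_le _ _).trans (add_le_add (norm_mul_le _ _) (norm_mul_le _ _))
        _ ≤ M * ((2 * γ) * 1 + 1 * (2 * γ)) := by gcongr
        _ = _ := by ring
    calc _ ≤ ‖(ι b - e) * ι x * ι b + e * ι x * (ι b - e) +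
            c * (c * ι x * c - wt x • (c * c)) * c‖
          + ‖wt x • ((ι b - e) * ι b + e * (ι b - e))‖ := norm_sub_le _ _
      _ ≤ (‖(ι b - e) * ι x * ι b‖ + ‖e * ι x * (ι b - e)‖ +
            ‖c * (c * ι x * c - wt x • (c * c)) * c‖) +
            ‖wt x • ((ι b - e) * ι b + e * (ι b - e))‖ := by
          gcongr; exact norm_add₃_le
      _ ≤ (2 * γ * M + 2 * γ * M + γ) + 4 * γ * M := by gcongr
      _ ≤ κ := by nlinarith [mul_le_mul_of_nonneg_left hMpos hγpos.le]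

section Irr
variable {B : Type u} [NonUnitalCStarAlgebra B] {H : Type v} [NormedAddCommGroup H]
  [InnerProductSpace ℂ H] [CompleteSpace H] {π : B →⋆ₙₐ[ℂ] (H →L[ℂ] H)}

/-- excision -/
theorem Irr.excise [PartialOrder B] [StarOrderedRing B]
    (hπ : Irr π) (ξ : H) (hξ : ‖ξ‖ = 1) (X : Finset B) (κ : ℝ) (hκ : 0 < κ) :
    ∃ b : B, 0 ≤ b ∧ ‖b‖ ≤ 1 ∧ 1 - κ ≤ ‖b‖ ∧
      ∀ x ∈ X, ‖b * x * b - ⟪ξ, π x ξ⟫_ℂ • (b * b)‖ ≤ κ := by
  let _ : PartialOrder (Unitization ℂ B) := CStarAlgebra.spectralOrder _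
  have _ : StarOrderedRing (Unitization ℂ B) := CStarAlgebra.spectralOrderedRing _
  obtain ⟨d, h1, h2, h3⟩ := K4_main (π := π) ξ hξ
    (fun κ hκ => by
      obtain ⟨b, hb1, hb2, hb3⟩ := Irr.approx_one hπ {ξ} κ hκ
      exact ⟨b, hb1, hb2, hb3 ξ (Finset.mem_singleton_self _)⟩)
    (fun T κ hκ => by
      obtain ⟨b, hb⟩ := Irr.dens hπ T {ξ} κ hκ
      exact ⟨b, hb ξ (Finset.mem_singleton_self _)⟩)
    (Unitization.inrNonUnitalStarAlgHom ℂ B) (fun b => by simpa using Unitization.norm_inr (𝕜 := ℂ) b)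
    (fun c b => ⟨c.fst • b + b * c.snd, by
      ext <;> simp⟩)
    (Unitization.starLift π) (fun b => by simp) X κ hκ
  exact ⟨star d * d, star_mul_self_nonneg _, h1, h2, h3⟩

end Irr

end Pool.Agent.helper32.CK
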